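import Pool.Agent.Helper62.WB.Goals

/-!
# MP_08df5f_al, project WB, packet SA: quotients of stable groups with Foelner sets
-/

set_option autoImplicit false

namespace Pool.Agent.Helper94.WB

open scoped Classical

open Pool.Agent.Helper62.WB

/-! ### the Hamming distance -/

theorem dH_nonneg {n : ℕ} (a b : Equiv.Perm (Fin n)) : 0 ≤ dH a b := by
  unfold dH
  positivity

theorem dH_self {n : ℕ} (a : Equiv.Perm (Fin n)) : dH a a = 0 := by
  unfold dH
  simp

theorem dH_comm {n : ℕ} (a b : Equiv.Perm (Fin n)) : dH a b = dH b a := by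
  unfold dH
  congr 2
  apply congrArg
  ext i
  simp [eq_comm]

theorem dH_tri {n : ℕ} (a b c : Equiv.Perm (Fin n)) : dH a c ≤ dH a b + dH b c := by
  unfold dH
  rw [← add_div]
  apply div_le_div_of_nonneg_right _ (Nat.cast_nonneg _)
  have h1 : (Finset.univ.filter (fun i => a i ≠ c i)) ⊆
      (Finset.univ.filter (fun i => a i ≠ b i)) ∪ (Finset.univ.filter (fun i => b i ≠ c i)) := by
    intro i hi
    rw [Finset.mem_union, Finset.mem_filter, Finset.mem_filter]
    rw [Finset.mem_filter] at hi
    by_cases h : a i = b i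
    · right
      refine ⟨Finset.mem_univ _, ?_⟩
      rw [← h]
      exact hi.2
    · left
      exact ⟨Finset.mem_univ _, h⟩
  have h2 := (Finset.card_le_card h1).trans (Finset.card_union_le _ _)
  exact_mod_cast h2

theorem dH_mul_left {n : ℕ} (a b c : Equiv.Perm (Fin n)) : dH (a * b) (a * c) = dH b c := by
  unfold dH
  congr 2
  apply congrArg
  ext i
  simp

theorem dH_mul_right {n : ℕ} (a b c : Equiv.Perm (Fin n)) : dH (a * c) (b * c) = dH a b := by
  unfold dH
  congr 2
  refine Finset.card_bij (fun i _ => c i) ?_ ?_ ?_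
  · intro i hi
    rw [Finset.mem_filter] at hi ⊢
    exact ⟨Finset.mem_univ _, hi.2⟩
  · intro i _ j _ h
    exact c.injective h
  · intro j hj
    refine ⟨c⁻¹ j, ?_, by simp⟩
    rw [Finset.mem_filter] at hj ⊢
    refine ⟨Finset.mem_univ _, ?_⟩
    simpa using hj.2

theorem dH_mul {n : ℕ} (a b c d : Equiv.Perm (Fin n)) : dH (a * b) (c * d) ≤ dH a c + dH b d := by
  refine (dH_tri (a * b) (c * b) (c * d)).trans ?_
  rw [dH_mul_right, dH_mul_left]

theorem dH_inv {n : ℕ} (a b : Equiv.Perm (Fin n)) : dH a⁻¹ b⁻¹ = dH a b := by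
  rw [← dH_mul_left a a⁻¹ b⁻¹, ← dH_mul_right (a * a⁻¹) (a * b⁻¹) b]
  rw [mul_inv_cancel, one_mul, mul_assoc, inv_mul_cancel, mul_one, dH_comm]

/-- a subadditive function on a free group is bounded by a multiple of its bound at the
letters -/
theorem len {k : ℕ} (v : FreeGroup (Fin k)) : ∃ l : ℕ, ∀ (f : FreeGroup (Fin k) → ℝ) (c : ℝ),
    0 ≤ c → f 1 ≤ 0 → (∀ s, f (FreeGroup.of s) ≤ c) → (∀ s, f (FreeGroup.of s)⁻¹ ≤ c) →
    (∀ a b, f (a * b) ≤ f a + f b) → f v ≤ l * c := by
  induction v using FreeGroup.induction_on with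
  | C1 =>
    refine ⟨0, fun f c hc h1 _ _ _ => ?_⟩
    simpa using h1
  | of s =>
    refine ⟨1, fun f c hc _ h2 _ _ => ?_⟩
    simpa using h2 s
  | inv_of s _ =>
    refine ⟨1, fun f c hc _ _ h3 _ => ?_⟩
    simpa using h3 s
  | mul a b ha hb =>
    obtain ⟨l1, h1⟩ := ha
    obtain ⟨l2, h2⟩ := hb
    refine ⟨l1 + l2, fun f c hc a1 a2 a3 a4 => ?_⟩
    have e1 := h1 f c hc a1 a2 a3 a4
    have e2 := h2 f c hc a1 a2 a3 a4
    have e3 := a4 a b
    push_cast
    linarith

/-! ### almost actions -/

theorem almost {G Q : Type} [Group G] [Group Q] (hF : Foel G) (mk : G →* Q) (S : Finset G)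
    (η : ℝ) (hη : 0 < η) : ∃ X : Finset (Q × ℕ), X.Nonempty ∧
      ∀ s ∈ S, ((X.filter (fun p => (mk s * p.1, p.2) ∉ X)).card : ℝ) ≤ η * X.card := by
  obtain ⟨F, hFn, hFS⟩ := hF S η hη
  set m : Q → ℕ := fun x => (F.filter (fun y => mk y = x)).card with hm
  set I : Finset Q := F.image mk with hI
  set X : Finset (Q × ℕ) := I.biUnion (fun x => {x} ×ˢ Finset.range (m x)) with hX
  have hmem : ∀ x i, (x, i) ∈ X ↔ i < m x := by
    intro x i
    rw [hX, Finset.mem_biUnion]
    constructor
    · rintro ⟨a, _, h2⟩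
      rw [Finset.mem_product, Finset.mem_singleton, Finset.mem_range] at h2
      obtain ⟨h3, h4⟩ := h2
      simp only at h3 h4
      rw [h3]
      exact h4
    · intro h
      refine ⟨x, ?_, ?_⟩
      · have h1 : (F.filter (fun y => mk y = x)).Nonempty := by
          rw [← Finset.card_pos]
          exact (Nat.zero_le i).trans_lt h
        obtain ⟨y, hy⟩ := h1
        rw [Finset.mem_filter] at hy
        rw [hI, Finset.mem_image]
        exact ⟨y, hy.1, hy.2⟩
      · rw [Finset.mem_product, Finset.mem_singleton, Finset.mem_range]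
        exact ⟨rfl, h⟩
  have hdisj : ∀ (g : Q → Finset ℕ), Set.PairwiseDisjoint (I : Set Q)
      (fun x => ({x} : Finset Q) ×ˢ g x) := by
    intro g x _ y _ hxy
    rw [Function.onFun, Finset.disjoint_left]
    rintro ⟨a, b⟩ h1 h2
    rw [Finset.mem_product, Finset.mem_singleton] at h1 h2
    exact hxy (h1.1.symm.trans h2.1)
  have hcard : X.card = F.card := by
    rw [hX, Finset.card_biUnion (hdisj (fun x => Finset.range (m x)))]
    rw [Finset.card_eq_sum_card_image mk F]
    refine Finset.sum_congr rfl fun x _ => ?_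
    rw [Finset.card_product, Finset.card_singleton, Finset.card_range, one_mul]
  refine ⟨X, ?_, fun s hs => ?_⟩
  · rw [← Finset.card_pos, hcard]
    exact Finset.card_pos.2 hFn
  rw [hcard]
  refine le_trans ?_ (hFS s hs)
  have h1 : X.filter (fun p => (mk s * p.1, p.2) ∉ X) ⊆
      I.biUnion (fun x => {x} ×ˢ Finset.Ico (m (mk s * x)) (m x)) := by
    rintro ⟨x, i⟩ h
    rw [Finset.mem_filter, hmem, hmem] at h
    obtain ⟨h2, h3⟩ := h
    simp only [not_lt] at h3
    have h4 : (x, i) ∈ X := (hmem x i).2 h2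
    rw [hX, Finset.mem_biUnion] at h4
    obtain ⟨a, ha, hb⟩ := h4
    rw [Finset.mem_product, Finset.mem_singleton] at hb
    have hb1 : x = a := hb.1
    rw [Finset.mem_biUnion]
    refine ⟨x, by rw [hb1]; exact ha, ?_⟩
    rw [Finset.mem_product, Finset.mem_singleton, Finset.mem_Ico]
    exact ⟨rfl, h3, h2⟩
  have h2 : (X.filter (fun p => (mk s * p.1, p.2) ∉ X)).card ≤
      (F.filter (fun y => s * y ∉ F)).card := by
    refine (Finset.card_le_card h1).trans ?_
    rw [Finset.card_biUnion (hdisj _)]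
    have h3 : (F.filter (fun y => s * y ∉ F)).card =
        ∑ x ∈ I, ((F.filter (fun y => s * y ∉ F)).filter (fun y => mk y = x)).card := by
      apply Finset.card_eq_sum_card_fiberwise
      intro y hy
      rw [hI, Finset.coe_image]
      exact ⟨y, (Finset.mem_filter.1 hy).1, rfl⟩
    rw [h3]
    refine Finset.sum_le_sum fun x _ => ?_
    rw [Finset.card_product, Finset.card_singleton, one_mul, Nat.card_Ico]
    have h4 : m x = ((F.filter (fun y => mk y = x)).filter (fun y => s * y ∈ F)).card +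
        ((F.filter (fun y => mk y = x)).filter (fun y => ¬ s * y ∈ F)).card :=
      (Finset.card_filter_add_card_filter_not _).symm
    have h5 : ((F.filter (fun y => mk y = x)).filter (fun y => s * y ∈ F)).card ≤
        m (mk s * x) := by
      refine Finset.card_le_card_of_injOn (fun y => s * y) ?_ ?_
      · intro y hy
        have hy' := Finset.mem_filter.1 hy
        have hy'' := Finset.mem_filter.1 hy'.1
        rw [Finset.mem_coe, Finset.mem_filter]
        refine ⟨hy'.2, ?_⟩
        rw [map_mul, hy''.2]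
      · intro a _ b _ hab
        exact mul_left_cancel hab
    have h6 : (F.filter (fun y => mk y = x)).filter (fun y => ¬ s * y ∈ F) =
        (F.filter (fun y => s * y ∉ F)).filter (fun y => mk y = x) := by
      rw [Finset.filter_filter, Finset.filter_filter]
      congr 1
      ext y
      exact and_comm
    rw [h6] at h4
    omega
  exact_mod_cast h2

/-- the almost action on `Fin n` -/
theorem perms {Q : Type} [Group Q] {k : ℕ} (ρ : FreeGroup (Fin k) →* Q) (X : Finset (Q × ℕ))
    (η : ℝ) (hX : X.Nonempty)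
    (h1 : ∀ s, ((X.filter (fun p => (ρ (FreeGroup.of s) * p.1, p.2) ∉ X)).card : ℝ) ≤
      η * X.card)
    (h2 : ∀ s, ((X.filter (fun p => (ρ (FreeGroup.of s)⁻¹ * p.1, p.2) ∉ X)).card : ℝ) ≤
      η * X.card) :
    ∃ (n : ℕ) (loc : Fin n → Q × ℕ) (p : Fin k → Equiv.Perm (Fin n)), 1 ≤ n ∧
      Function.Injective loc ∧
      (∀ s, ((Finset.univ.filter (fun a => loc (p s a) ≠
        (ρ (FreeGroup.of s) * (loc a).1, (loc a).2))).card : ℝ) ≤ η * n) ∧
      (∀ s, ((Finset.univ.filter (fun a => loc ((p s)⁻¹ a) ≠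
        (ρ (FreeGroup.of s)⁻¹ * (loc a).1, (loc a).2))).card : ℝ) ≤ η * n) := by
  set n := X.card with hn
  set e : Fin n ≃ X := X.equivFin.symm with he
  set loc : Fin n → Q × ℕ := fun a => (e a : Q × ℕ) with hloc
  have hinj : Function.Injective loc := fun a b h => e.injective (Subtype.ext h)
  have hlocX : ∀ a, loc a ∈ X := fun a => (e a).2
  have hsurj : ∀ y ∈ X, ∃ a, loc a = y := by
    intro y hy
    exact ⟨e.symm ⟨y, hy⟩, by simp [hloc]⟩
  have hcard : ∀ g : Q, (Finset.univ.filter (fun a => (g * (loc a).1, (loc a).2) ∉ X)).card =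
      (X.filter (fun p => (g * p.1, p.2) ∉ X)).card := by
    intro g
    refine Finset.card_bij (fun a _ => loc a) ?_ ?_ ?_
    · intro a ha
      rw [Finset.mem_filter] at ha ⊢
      exact ⟨hlocX a, ha.2⟩
    · intro a _ b _ h
      exact hinj h
    · intro y hy
      rw [Finset.mem_filter] at hy
      obtain ⟨a, ha⟩ := hsurj y hy.1
      refine ⟨a, ?_, ha⟩
      rw [Finset.mem_filter, ha]
      exact ⟨Finset.mem_univ _, hy.2⟩
  have hext : ∀ g : Q, ∃ p : Equiv.Perm (Fin n),
      (∀ a, (g * (loc a).1, (loc a).2) ∈ X → loc (p a) = (g * (loc a).1, (loc a).2)) ∧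
      (∀ a, (g⁻¹ * (loc a).1, (loc a).2) ∈ X → loc (p⁻¹ a) = (g⁻¹ * (loc a).1, (loc a).2)) := by
    intro g
    have hE : ∀ (h : Q) (a : Fin n) (ha : (h * (loc a).1, (loc a).2) ∈ X),
        loc (e.symm ⟨_, ha⟩) = (h * (loc a).1, (loc a).2) := by
      intro h a ha
      simp [hloc]
    let E : {a : Fin n // (g * (loc a).1, (loc a).2) ∈ X} ≃
        {a : Fin n // (g⁻¹ * (loc a).1, (loc a).2) ∈ X} :=
      { toFun := fun a => ⟨e.symm ⟨_, a.2⟩, by
          rw [hE g a.1 a.2]
          simp only [inv_mul_cancel_left]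
          exact hlocX a.1⟩
        invFun := fun a => ⟨e.symm ⟨_, a.2⟩, by
          rw [hE g⁻¹ a.1 a.2]
          simp only [mul_inv_cancel_left]
          exact hlocX a.1⟩
        left_inv := fun a => by
          apply Subtype.ext
          apply hinj
          simp only
          rw [hE, hE]
          simp
        right_inv := fun a => by
          apply Subtype.ext
          apply hinj
          simp only
          rw [hE, hE]
          simp }
    have hp : ∀ a (ha : (g * (loc a).1, (loc a).2) ∈ X),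
        loc (E.extendSubtype a) = (g * (loc a).1, (loc a).2) := by
      intro a ha
      rw [Equiv.extendSubtype_apply_of_mem E a ha]
      exact hE g a ha
    refine ⟨E.extendSubtype, hp, fun a ha => ?_⟩
    set b : Fin n := e.symm ⟨_, ha⟩ with hb
    have hb1 : loc b = (g⁻¹ * (loc a).1, (loc a).2) := hE g⁻¹ a ha
    have hb2 : (g * (loc b).1, (loc b).2) ∈ X := by
      rw [hb1]
      simp only [mul_inv_cancel_left]
      exact hlocX a
    have hb3 : E.extendSubtype b = a := by
      apply hinj
      rw [hp b hb2, hb1]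
      simp
    have hb4 : (E.extendSubtype)⁻¹ a = b := by
      rw [← hb3]
      simp
    rw [hb4, hb1]
  choose P hP1 hP2 using hext
  refine ⟨n, loc, fun s => P (ρ (FreeGroup.of s)), Finset.card_pos.2 hX, hinj, fun s => ?_,
    fun s => ?_⟩
  · refine le_trans ?_ (h1 s)
    rw [← hcard]
    have : (Finset.univ.filter (fun a => loc (P (ρ (FreeGroup.of s)) a) ≠
        (ρ (FreeGroup.of s) * (loc a).1, (loc a).2))) ⊆
        (Finset.univ.filter (fun a => (ρ (FreeGroup.of s) * (loc a).1, (loc a).2) ∉ X)) := by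
      intro a ha
      rw [Finset.mem_filter] at ha ⊢
      exact ⟨Finset.mem_univ _, fun h => ha.2 (hP1 _ a h)⟩
    exact_mod_cast Finset.card_le_card this
  · refine le_trans ?_ (h2 s)
    rw [← hcard]
    have : (Finset.univ.filter (fun a => loc ((P (ρ (FreeGroup.of s)))⁻¹ a) ≠
        (ρ (FreeGroup.of s)⁻¹ * (loc a).1, (loc a).2))) ⊆
        (Finset.univ.filter (fun a => (ρ (FreeGroup.of s)⁻¹ * (loc a).1, (loc a).2) ∉ X)) := by
      intro a ha
      rw [Finset.mem_filter] at ha ⊢
      refine ⟨Finset.mem_univ _, fun h => ha.2 ?_⟩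
      rw [map_inv] at h ⊢
      exact hP2 _ a h
    exact_mod_cast Finset.card_le_card this

/-- the number of bad points of a word, divided by `n` -/
noncomputable def bd {Q : Type} [Group Q] {k n : ℕ} (ρ : FreeGroup (Fin k) →* Q)
    (loc : Fin n → Q × ℕ) (p : Fin k → Equiv.Perm (Fin n)) (v : FreeGroup (Fin k)) : ℝ :=
  ((Finset.univ.filter (fun a => loc (FreeGroup.lift p v a) ≠
    (ρ v * (loc a).1, (loc a).2))).card : ℝ) / n

theorem bd_one {Q : Type} [Group Q] {k n : ℕ} (ρ : FreeGroup (Fin k) →* Q)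
    (loc : Fin n → Q × ℕ) (p : Fin k → Equiv.Perm (Fin n)) : bd ρ loc p 1 ≤ 0 := by
  unfold bd
  simp

theorem bd_mul {Q : Type} [Group Q] {k n : ℕ} (ρ : FreeGroup (Fin k) →* Q)
    (loc : Fin n → Q × ℕ) (p : Fin k → Equiv.Perm (Fin n)) (v w : FreeGroup (Fin k)) :
    bd ρ loc p (v * w) ≤ bd ρ loc p v + bd ρ loc p w := by
  unfold bd
  rw [← add_div]
  apply div_le_div_of_nonneg_right _ (Nat.cast_nonneg _)
  set A := Finset.univ.filter (fun a => loc (FreeGroup.lift p v a) ≠
    (ρ v * (loc a).1, (loc a).2)) with hA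
  set B := Finset.univ.filter (fun a => loc (FreeGroup.lift p w a) ≠
    (ρ w * (loc a).1, (loc a).2)) with hB
  have h1 : (Finset.univ.filter (fun a => loc (FreeGroup.lift p (v * w) a) ≠
      (ρ (v * w) * (loc a).1, (loc a).2))) ⊆
      A.image (fun a => (FreeGroup.lift p w)⁻¹ a) ∪ B := by
    intro a ha
    rw [Finset.mem_filter] at ha
    rw [Finset.mem_union, Finset.mem_image]
    by_cases h : a ∈ B
    · right
      exact h
    · left
      refine ⟨FreeGroup.lift p w a, ?_, by simp⟩
      rw [hB, Finset.mem_filter] at h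
      push Not at h
      have h2 := h (Finset.mem_univ _)
      rw [hA, Finset.mem_filter]
      refine ⟨Finset.mem_univ _, fun h3 => ha.2 ?_⟩
      rw [map_mul, Equiv.Perm.mul_apply, h3, h2, map_mul, mul_assoc]
  have h2 := (Finset.card_le_card h1).trans (Finset.card_union_le _ _)
  have h3 : (A.image (fun a => (FreeGroup.lift p w)⁻¹ a)).card ≤ A.card := Finset.card_image_le
  have h4 := h2.trans (Nat.add_le_add_right h3 _)
  exact_mod_cast h4

theorem main {G Q : Type} [Group G] [Group Q] (hF : Foel G) (hS : Stable G) (mk : G →* Q)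
    (hmk : Function.Surjective mk) (N : Subgroup G) (hNN : N.Normal) (hNk : mk.ker = N)
    (hN : N.FG) : RF Q := by
  intro g hg
  obtain ⟨k, π, hπ, hst⟩ := hS
  obtain ⟨S₀, hS₀⟩ := hN
  set ρ : FreeGroup (Fin k) →* Q := mk.comp π with hρ
  obtain ⟨g', hg'⟩ := hmk g
  obtain ⟨w, hw⟩ := hπ g'
  have hρw : ρ w = g := by
    rw [hρ, MonoidHom.comp_apply, hw]
    exact hg'
  choose u hu using hπ
  choose l hl using fun v : FreeGroup (Fin k) => len v
  -- the constants
  set L : ℝ := ∑ x ∈ S₀, (l (u x) : ℝ) + l w + 1 with hL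
  have hL0 : 0 < L := by
    have h1 : (0 : ℝ) ≤ ∑ x ∈ S₀, (l (u x) : ℝ) := Finset.sum_nonneg fun _ _ => Nat.cast_nonneg _
    have h2 : (0 : ℝ) ≤ l w := Nat.cast_nonneg _
    linarith
  set ε : ℝ := 1 / (4 * L) with hε
  have hε0 : 0 < ε := by positivity
  obtain ⟨R₀, hR₀, δ, hδ, hst'⟩ := hst ε hε0
  set M : ℝ := ∑ r ∈ R₀, (l r : ℝ) + 1 with hM
  have hM0 : 0 < M := by
    have h1 : (0 : ℝ) ≤ ∑ r ∈ R₀, (l r : ℝ) := Finset.sum_nonneg fun _ _ => Nat.cast_nonneg _
    linarith
  set η : ℝ := min ε (δ / (2 * M)) with hη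
  have hη0 : 0 < η := lt_min hε0 (by positivity)
  have hηε : η ≤ ε := min_le_left _ _
  have hηδ : η ≤ δ / (2 * M) := min_le_right _ _
  obtain ⟨X, hX, hXS⟩ := almost hF mk (Finset.univ.image (fun s => π (FreeGroup.of s)) ∪
    Finset.univ.image (fun s => (π (FreeGroup.of s))⁻¹)) η hη0
  obtain ⟨n, loc, p, hn, hloc, hp1, hp2⟩ := perms ρ X η hX
    (fun s => hXS (π (FreeGroup.of s)) (Finset.mem_union_left _
      (Finset.mem_image_of_mem _ (Finset.mem_univ s))))
    (fun s => by
      have h1 := hXS (π (FreeGroup.of s))⁻¹ (Finset.mem_union_right _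
        (Finset.mem_image_of_mem (fun s => (π (FreeGroup.of s))⁻¹) (Finset.mem_univ s)))
      have h2 : ρ (FreeGroup.of s)⁻¹ = mk (π (FreeGroup.of s))⁻¹ := by
        rw [hρ, MonoidHom.comp_apply, map_inv]
      rw [h2]
      exact h1)
  have hn0 : (0 : ℝ) < n := by exact_mod_cast hn
  have hbd : ∀ v, bd ρ loc p v ≤ l v * η := by
    intro v
    refine hl v (bd ρ loc p) η hη0.le (bd_one ρ loc p) (fun s => ?_) (fun s => ?_)
      (bd_mul ρ loc p)
    · unfold bd
      rw [div_le_iff₀ hn0, FreeGroup.lift_apply_of]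
      exact hp1 s
    · unfold bd
      rw [div_le_iff₀ hn0, map_inv, FreeGroup.lift_apply_of]
      exact hp2 s
  have hone : ∀ v, ρ v = 1 → dH (FreeGroup.lift p v) 1 ≤ l v * η := by
    intro v hv
    refine le_trans ?_ (hbd v)
    unfold dH bd
    apply div_le_div_of_nonneg_right _ hn0.le
    have : (Finset.univ.filter (fun i => FreeGroup.lift p v i ≠ (1 : Equiv.Perm (Fin n)) i)) ⊆
        (Finset.univ.filter (fun a => loc (FreeGroup.lift p v a) ≠
          (ρ v * (loc a).1, (loc a).2))) := by
      intro a ha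
      rw [Finset.mem_filter] at ha ⊢
      refine ⟨Finset.mem_univ _, fun h => ha.2 ?_⟩
      apply hloc
      rw [h, hv, one_mul]
      rfl
    exact_mod_cast Finset.card_le_card this
  obtain ⟨q, hq1, hq2⟩ := hst' n hn p (by
    intro r hr
    have h1 : ρ r = 1 := by
      rw [hρ, MonoidHom.comp_apply, hR₀ r hr, map_one]
    refine (hone r h1).trans_lt ?_
    have h2 : (l r : ℝ) ≤ M := by
      have := Finset.single_le_sum (f := fun r => (l r : ℝ)) (fun _ _ => Nat.cast_nonneg _) hr
      linarith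
    calc (l r : ℝ) * η ≤ M * (δ / (2 * M)) := mul_le_mul h2 hηδ hη0.le hM0.le
      _ = δ / 2 := by field_simp
      _ < δ := by linarith)
  have hpq : ∀ v, dH (FreeGroup.lift p v) (FreeGroup.lift q v) ≤ l v * ε := by
    intro v
    refine hl v (fun v => dH (FreeGroup.lift p v) (FreeGroup.lift q v)) ε hε0.le ?_
      (fun s => ?_) (fun s => ?_) (fun a b => ?_)
    · simp only [map_one]
      rw [dH_self]
    · rw [FreeGroup.lift_apply_of, FreeGroup.lift_apply_of]
      exact (hq2 s).le
    · rw [map_inv, map_inv, FreeGroup.lift_apply_of, FreeGroup.lift_apply_of, dH_inv]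
      exact (hq2 s).le
    · rw [map_mul, map_mul]
      exact dH_mul _ _ _ _
  -- the homomorphism of `G`
  have hker : π.ker ≤ (FreeGroup.lift q).ker := by
    intro r hr
    rw [MonoidHom.mem_ker] at hr ⊢
    exact hq1 r hr
  have hπs : Function.Surjective π := fun x => ⟨u x, hu x⟩
  set φ : G →* Equiv.Perm (Fin n) :=
    π.liftOfSurjective hπs ⟨FreeGroup.lift q, hker⟩ with hφ
  have hφπ : ∀ v, φ (π v) = FreeGroup.lift q v := by
    intro v
    exact MonoidHom.liftOfRightInverse_comp_apply _ _ _ ⟨FreeGroup.lift q, hker⟩ v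
  -- a point which is fixed by the generators of `N` and moved by `w`
  have hpt : ∃ a : Fin n, (∀ x ∈ S₀, φ x a = a) ∧ FreeGroup.lift q w a ≠ a := by
    by_contra hcon
    push Not at hcon
    have h1 : (Finset.univ : Finset (Fin n)) ⊆
        (S₀.biUnion (fun x => Finset.univ.filter (fun a => FreeGroup.lift q (u x) a ≠
          (1 : Equiv.Perm (Fin n)) a))) ∪
        (Finset.univ.filter (fun a => FreeGroup.lift p w a ≠ FreeGroup.lift q w a) ∪
        Finset.univ.filter (fun a => loc (FreeGroup.lift p w a) ≠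
          (ρ w * (loc a).1, (loc a).2))) := by
      intro a _
      rw [Finset.mem_union, Finset.mem_union, Finset.mem_biUnion]
      by_cases h : ∀ x ∈ S₀, φ x a = a
      · right
        have h2 := hcon a h
        by_cases h3 : FreeGroup.lift p w a = FreeGroup.lift q w a
        · right
          rw [Finset.mem_filter]
          refine ⟨Finset.mem_univ _, fun h4 => ?_⟩
          rw [h3, h2, hρw] at h4
          have h5 : (loc a).1 = g * (loc a).1 := congrArg Prod.fst h4
          exact hg (mul_eq_right.1 h5.symm)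
        · left
          rw [Finset.mem_filter]
          exact ⟨Finset.mem_univ _, h3⟩
      · left
        push Not at h
        obtain ⟨x, hx, hxa⟩ := h
        refine ⟨x, hx, ?_⟩
        rw [Finset.mem_filter]
        refine ⟨Finset.mem_univ _, ?_⟩
        rw [← hφπ, hu]
        exact hxa
    have h2 : (n : ℝ) ≤ (∑ x ∈ S₀, ((Finset.univ.filter (fun a => FreeGroup.lift q (u x) a ≠
          (1 : Equiv.Perm (Fin n)) a)).card : ℝ)) +
        (((Finset.univ.filter (fun a => FreeGroup.lift p w a ≠ FreeGroup.lift q w a)).card : ℝ) +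
        ((Finset.univ.filter (fun a => loc (FreeGroup.lift p w a) ≠
          (ρ w * (loc a).1, (loc a).2))).card : ℝ)) := by
      have h3 := Finset.card_le_card h1
      rw [Finset.card_univ, Fintype.card_fin] at h3
      have h4 := h3.trans (Finset.card_union_le _ _)
      have h5 := h4.trans (Nat.add_le_add Finset.card_biUnion_le (Finset.card_union_le _ _))
      exact_mod_cast h5
    have h3 : ∀ x ∈ S₀, ((Finset.univ.filter (fun a => FreeGroup.lift q (u x) a ≠
          (1 : Equiv.Perm (Fin n)) a)).card : ℝ) ≤ (l (u x) * (2 * ε)) * n := by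
      intro x hx
      have h4 : ρ (u x) = 1 := by
        rw [hρ, MonoidHom.comp_apply, hu]
        have : x ∈ N := by
          rw [← hS₀]
          exact Subgroup.subset_closure hx
        rw [← hNk] at this
        exact this
      have h5 := (dH_tri (FreeGroup.lift q (u x)) (FreeGroup.lift p (u x)) 1).trans
        (add_le_add ((dH_comm _ _).le.trans (hpq (u x))) (hone (u x) h4))
      have h6 : (l (u x) : ℝ) * η ≤ l (u x) * ε := mul_le_mul_of_nonneg_left hηε
        (Nat.cast_nonneg _)
      rw [← div_le_iff₀ hn0]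
      refine le_trans (le_of_eq rfl) (h5.trans ?_)
      linarith
    have h4 : ((Finset.univ.filter (fun a => FreeGroup.lift p w a ≠
        FreeGroup.lift q w a)).card : ℝ) ≤ (l w * ε) * n := by
      rw [← div_le_iff₀ hn0]
      exact hpq w
    have h5 : ((Finset.univ.filter (fun a => loc (FreeGroup.lift p w a) ≠
          (ρ w * (loc a).1, (loc a).2))).card : ℝ) ≤ (l w * ε) * n := by
      rw [← div_le_iff₀ hn0]
      have := (hbd w).trans (mul_le_mul_of_nonneg_left hηε (Nat.cast_nonneg _))
      unfold bd at this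
      exact this
    have h6 := Finset.sum_le_sum h3
    rw [← Finset.sum_mul, ← Finset.sum_mul] at h6
    have h7 : (n : ℝ) ≤ (L * (2 * ε)) * n := by
      have h8 : (0 : ℝ) ≤ 2 * ε * n := by positivity
      have : L * (2 * ε) * n = (∑ x ∈ S₀, (l (u x) : ℝ)) * (2 * ε) * n + (l w * ε) * n +
          (l w * ε) * n + 2 * ε * n := by
        rw [hL]
        ring
      linarith
    have h8 : L * (2 * ε) = 1 / 2 := by
      rw [hε]
      field_simp
      norm_num
    rw [h8] at h7
    linarith
  obtain ⟨a₀, ha₀, ha₁⟩ := hpt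
  -- the subgroup of `G`
  have hfix : ∀ x ∈ N, φ x a₀ = a₀ := by
    intro x hx
    rw [← hS₀] at hx
    induction hx using Subgroup.closure_induction with
    | mem x hx => exact ha₀ x hx
    | one => simp
    | mul x y _ _ h1 h2 => rw [map_mul, Equiv.Perm.mul_apply, h2, h1]
    | inv x _ h1 =>
      rw [map_inv, Equiv.Perm.inv_eq_iff_eq]
      exact h1.symm
  let K : Subgroup G :=
    { carrier := {x | ∀ a : Fin n, (∀ y ∈ N, φ y a = a) → φ x a = a}
      mul_mem' := by
        intro x y hx hy a ha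
        rw [map_mul, Equiv.Perm.mul_apply, hy a ha, hx a ha]
      one_mem' := by
        intro a _
        simp
      inv_mem' := by
        intro x hx a ha
        rw [map_inv, Equiv.Perm.inv_eq_iff_eq]
        exact (hx a ha).symm }
  have hKN : K.Normal := by
    constructor
    intro x hx y a ha
    have h1 : ∀ z ∈ N, φ z (φ y⁻¹ a) = φ y⁻¹ a := by
      intro z hz
      have h2 : φ (y * z * y⁻¹) a = a := ha _ (hNN.conj_mem z hz y)
      rw [map_mul, map_mul, Equiv.Perm.mul_apply, Equiv.Perm.mul_apply] at h2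
      have h3 := congrArg (φ y⁻¹) h2
      rw [← Equiv.Perm.mul_apply (φ y⁻¹) (φ y), ← map_mul, inv_mul_cancel, map_one,
        Equiv.Perm.one_apply] at h3
      exact h3
    have h2 := hx _ h1
    rw [map_mul, map_mul, Equiv.Perm.mul_apply, Equiv.Perm.mul_apply, h2,
      ← Equiv.Perm.mul_apply (φ y) (φ y⁻¹), ← map_mul, mul_inv_cancel, map_one,
      Equiv.Perm.one_apply]
  have hKle : φ.ker ≤ K := by
    intro x hx a _
    rw [MonoidHom.mem_ker] at hx
    rw [hx]
    rfl
  have hKF : K.FiniteIndex := Subgroup.finiteIndex_of_le hKle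
  have hNK : N ≤ K := fun x hx a ha => ha x hx
  refine ⟨K.map mk, hKN.map mk hmk, ?_, ?_⟩
  · constructor
    intro h0
    have h1 := Subgroup.index_map_dvd K hmk
    rw [h0, zero_dvd_iff] at h1
    exact hKF.index_ne_zero h1
  · intro hgK
    obtain ⟨x, hxK, hx⟩ := hgK
    have h1 : mk x = mk (π w) := by
      rw [hx, ← hρw]
      rfl
    have h2 : x⁻¹ * π w ∈ N := by
      rw [← hNk, MonoidHom.mem_ker, map_mul, map_inv, h1, inv_mul_cancel]
    have h3 : π w ∈ K := by
      have h4 := K.mul_mem hxK (hNK h2)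
      rwa [mul_inv_cancel_left] at h4
    have h4 := h3 a₀ hfix
    rw [hφπ] at h4
    exact ha₁ h4

/-- Packet `SA`. -/
theorem sa : StmtSA := by
  intro G _ hF hS N hN hNf
  exact main hF hS (QuotientGroup.mk' N) (QuotientGroup.mk'_surjective N) N hN
    (QuotientGroup.ker_mk' N) hNf

end Pool.Agent.Helper94.WB
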